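import Pool.Agent.R510.GK.Step
import Pool.Agent.R510.GK.Scat

/-!
# The lattice simultaneous packing and covering constant of `C(K)`

`γ*(C(K)) = 1` for every (nonempty) compact metrisable space `K`, and more generally for every compact Hausdorff space
whose perfect kernel is metrisable.

Proof.  Let `P` be the perfect kernel of `K`.  One constructs a subgroup `G` of `C(K)` which is almost `1`-dense for the
seminorm `sup_P |·|` and such that `sup_P |g| ≥ 2` for all `g ≠ 0` in `G`: the generators are `x_n + (1+b) y_n`, where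
`(x_n)` is dense (on `P`) and `y_n` is a function of norm one which is almost `ℓ₁`-orthogonal, on `P`, to the
finite-dimensional space spanned by the earlier generators and by `x_n`; here one uses that `P` has no isolated
points.  To `G` one adds the group of the continuous functions with even integer values which vanish on `P`.  A function
`h` with `|h| < 1 + a` on `P` is rounded to an even integer valued continuous function with thresholds `±(2n + t)`,
`1 ≤ t < 1 + a`, where `t` is chosen such that `|h|` does not take the values `2n + t`: this is possible because `h` has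
only countably many values on a compact subset of `K \ P`.
-/

set_option autoImplicit false

namespace Pool.Agent.Results.MP_2e9bdd_an.MetrisableKernel

open Set

universe u

/-- `P` is `2`-separated. -/
def TwoSeparated {X : Type u} [NormedAddCommGroup X] (P : Set X) : Prop :=
  ∀ p ∈ P, ∀ q ∈ P, p ≠ q → 2 ≤ ‖p - q‖

/-- `P` is `r`-dense. -/
def RDense {X : Type u} [NormedAddCommGroup X] (r : ℝ) (P : Set X) : Prop :=
  ∀ x : X, ∃ p ∈ P, ‖x - p‖ ≤ r

/-- The lattice simultaneous packing and covering constant `γ*(X)`. -/
noncomputable def gammaStar (X : Type u) [NormedAddCommGroup X] : ℝ :=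
  sInf {r : ℝ | 0 < r ∧ ∃ P : AddSubgroup X, RDense r (P : Set X) ∧ TwoSeparated (P : Set X)}

open Pool.Agent.R510.GK

lemma gammaStar_eq_one {K : Type u} [TopologicalSpace K] [CompactSpace K] [Nonempty K]
    (hex : ∀ a : ℝ, 0 < a → ∃ D : AddSubgroup C(K, ℝ), (∀ f : C(K, ℝ), ∃ d ∈ D, ‖f - d‖ ≤ 1 + a) ∧
      ∀ d ∈ D, d ≠ 0 → 2 ≤ ‖d‖) : gammaStar C(K, ℝ) = 1 := by
  have hmem : ∀ a : ℝ, 0 < a → 1 + a ∈ {r : ℝ | 0 < r ∧ ∃ P : AddSubgroup C(K, ℝ),
      RDense r (P : Set C(K, ℝ)) ∧ TwoSeparated (P : Set C(K, ℝ))} := by
    intro a ha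
    obtain ⟨D, hD1, hD2⟩ := hex a ha
    refine ⟨by linarith, D, hD1, fun p hp q hq hpq => ?_⟩
    exact hD2 (p - q) (D.sub_mem hp hq) (sub_ne_zero.mpr hpq)
  have hlb : ∀ r ∈ {r : ℝ | 0 < r ∧ ∃ P : AddSubgroup C(K, ℝ),
      RDense r (P : Set C(K, ℝ)) ∧ TwoSeparated (P : Set C(K, ℝ))}, 1 ≤ r := by
    rintro r ⟨_, P, hP1, hP2⟩
    obtain ⟨p, hp, hr⟩ := hP1 1
    by_cases hp0 : p = 0
    · rw [hp0, sub_zero, norm_one] at hr
      exact hr
    · have h2 := hP2 p hp 0 P.zero_mem hp0
      rw [sub_zero] at h2
      have h3 : ‖p‖ ≤ ‖(1 : C(K, ℝ)) - p‖ + ‖(1 : C(K, ℝ))‖ := by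
        have := norm_sub_le (1 : C(K, ℝ)) ((1 : C(K, ℝ)) - p)
        rw [sub_sub_cancel] at this
        linarith
      rw [norm_one] at h3
      linarith
  apply le_antisymm
  · apply le_of_forall_pos_le_add
    intro a ha
    exact csInf_le ⟨1, hlb⟩ (hmem a ha)
  · exact le_csInf ⟨_, hmem 1 one_pos⟩ hlb

/-- `γ*(C(K)) = 1` (1) for every nonempty compact metrisable space `K`; (2) for every nonempty compact Hausdorff space
`K` with a closed metrisable subset `P` without isolated points (possibly empty) such that `K \ P` is scattered, that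
is, every nonempty subset of `K \ P` has an isolated point. -/
theorem result :
    (∀ (K : Type u) [TopologicalSpace K] [CompactSpace K] [TopologicalSpace.MetrizableSpace K] [Nonempty K],
      gammaStar C(K, ℝ) = 1) ∧
    (∀ (K : Type u) [TopologicalSpace K] [CompactSpace K] [T2Space K] [Nonempty K] (P : Set K),
      IsClosed P → Preperfect P → TopologicalSpace.MetrizableSpace P →
      (∀ A ⊆ Pᶜ, A.Nonempty → ¬ Preperfect A) → gammaStar C(K, ℝ) = 1) := by
  have sep : ∀ (P : Type u) [TopologicalSpace P] [CompactSpace P] [TopologicalSpace.MetrizableSpace P],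
      TopologicalSpace.SeparableSpace C(P, ℝ) := by
    intro P _ _ _
    letI := TopologicalSpace.metrizableSpaceMetric P
    have : SecondCountableTopology P := inferInstance
    infer_instance
  constructor
  · intro K _ _ _ _
    letI := TopologicalSpace.metrizableSpaceMetric K
    obtain ⟨V, P, hV, hP, hVP⟩ := exists_countable_union_perfect_of_isClosed (isClosed_univ (X := K))
    have hPV : Pᶜ ⊆ V := by
      intro x hx
      have : x ∈ V ∪ P := hVP ▸ mem_univ x
      exact this.resolve_right hx
    have : CompactSpace P := isCompact_iff_compactSpace.mp hP.closed.isCompact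
    exact gammaStar_eq_one fun a ha => lattice_exists hP.closed hP.acc (sep P)
      (fun h C _ hCP => (hV.mono (hCP.trans hPV)).image h) ha
  · intro K _ _ _ _ P hPc hP hPm hsc
    have : CompactSpace P := isCompact_iff_compactSpace.mp hPc.isCompact
    exact gammaStar_eq_one fun a ha => lattice_exists hPc hP (sep P)
      (fun h C hC hCP => image_countable hC (fun A hA => hsc A (hA.trans hCP)) h) ha

end Pool.Agent.Results.MP_2e9bdd_an.MetrisableKernel
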